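import Pool.Agent.H69.Sch2

set_option autoImplicit false

namespace Pool.Agent.Results.MP_e8676d_al.Degrees

open Pool.Agent.H69.Sch

theorem result : degrees = Set.Ici (1 : ℝ) :=
  Set.ext (fun _ => ⟨one_le, mem_degrees⟩)

end Pool.Agent.Results.MP_e8676d_al.Degrees
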